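import Pool.Agent.H30.TauG

set_option autoImplicit false

namespace Pool.Agent.Results.MP_b17faa_gt.CH

open Pool.Agent.H30.Tau Cardinal

/-- Under the continuum hypothesis `S_fin(Ω, T)` does not imply `U_fin(Γ, Γ)`. -/
theorem result (hc : (𝔠 : Cardinal.{0}) = ℵ₁) :
    ∃ X : Set ℝ, Sfin (Z := X) Om Ta ∧ ¬ Ufin (Z := X) Ga Ga :=
  let ⟨X, h1, _, _, h2, _⟩ := tower_real hc
  ⟨X, h1, h2⟩

end Pool.Agent.Results.MP_b17faa_gt.CH
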