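import Pool.Agent.H30.TauA

set_option autoImplicit false

namespace Pool.Agent.Results.MP_b17faa_gt.One

open Pool.Agent.H30.Tau

/-- `S₁(Γ, T)` implies `S₁(Γ, Γ)`. -/
theorem result (X : Set ℝ) (h : S1 (Z := X) Ga Ta) : S1 (Z := X) Ga Ga :=
  s1_GT h

end Pool.Agent.Results.MP_b17faa_gt.One
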